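import Mathlib
import Pool.Agent.Q254.CubicMain

/-!
# Quadratic substitutions and sums of two squares (MP_93e32b_nt, Q1: no)

If `p(q₀(x)) = q₁(x)² + q₂(x)²` with `p` an irreducible cubic, then in the variable `Y` with
`q₀ = a Y + c` one finds `p(a Y + c) = a³ (Y (Y + μ)² + (l Y + σ)²)`, `a` a sum of two squares.
Hence for a root `θ` of `p` in `ℚ₂` and `k = q₀(x)` (`x` rational) `k - θ` is a sum of two
squares in `ℚ₂`.  For `p = x³ + 2x² + 3x + 8c` and `θ ∈ 8ℤ₂` this is impossible for integers `k`.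
-/

set_option autoImplicit false

open Polynomial

namespace Pool.Agent.Results.MP_93e32b_nt.NoQuadratic

/-- The answer to Q1 is no: the irreducible cubic `x³ + 2x² + 3x + 8` admits no integer-valued
quadratic `q₀` with `p(q₀(x))` a sum of two squares in `ℚ[x]`.  More generally, for every
irreducible cubic `x³ + 2x² + 3x + 8c`, `c ∈ ℤ`, there is no quadratic `q₀ ∈ ℚ[x]` taking an
integer value at some rational point with `p(q₀(x))` a sum of two squares in `ℚ[x]`. -/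
theorem result :
    (¬ ∀ p : ℤ[X], p.Monic → p.natDegree = 3 → Irreducible p →
      ∃ q₀ q₁ q₂ : ℚ[X], q₀.natDegree = 2 ∧ (∀ n : ℤ, ∃ m : ℤ, q₀.eval (n : ℚ) = m) ∧
        (p.map (Int.castRingHom ℚ)).comp q₀ = q₁ ^ 2 + q₂ ^ 2) ∧
    Irreducible (X ^ 3 + 2 * X ^ 2 + 3 * X + C (8 * 1) : ℤ[X]) ∧
    (∀ c : ℤ, Irreducible (X ^ 3 + 2 * X ^ 2 + 3 * X + C (8 * c) : ℤ[X]) →
      ∀ q₀ q₁ q₂ : ℚ[X], q₀.natDegree = 2 → (∃ (x : ℚ) (k : ℤ), q₀.eval x = k) →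
        ((X ^ 3 + 2 * X ^ 2 + 3 * X + C (8 * c) : ℤ[X]).map (Int.castRingHom ℚ)).comp q₀ ≠
          q₁ ^ 2 + q₂ ^ 2) := by
  refine ⟨fun hall => ?_, Q254Cubic.pc_one_irreducible,
    fun c hirr q₀ q₁ q₂ h0 hint => Q254Cubic.no_identity hirr q₀ q₁ q₂ h0 hint⟩
  obtain ⟨q₀, q₁, q₂, h0, hint, h⟩ := hall (Q254Cubic.pc 1) (Q254Cubic.pc_monic 1)
    (Q254Cubic.pc_natDegree 1) Q254Cubic.pc_one_irreducible
  obtain ⟨m, hm⟩ := hint 0
  exact Q254Cubic.no_identity Q254Cubic.pc_one_irreducible q₀ q₁ q₂ h0 ⟨_, m, hm⟩ h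

end Pool.Agent.Results.MP_93e32b_nt.NoQuadratic
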